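import Pool.Agent.K3h22.EX.Stm4
import Pool.Agent.K3h76.EX.Dom

/-!
# Two-sided bounds for exponential polynomials with linear exponents (brick DOM2 of helper22)
-/

set_option autoImplicit false

namespace Pool.Agent.K3h40.EX

open Pool.Agent.K3h22.EX Pool.Agent.K3h76.EX
open MvPolynomial Filter Topology Metric Set

variable {s : ℕ}

lemma dot_cont (l : Fin s → ℂ) : Continuous fun v : Fin s → ℂ => dot l v := by
  unfold dot
  fun_prop

lemma eval_lin (l : Fin s → ℂ) (μ : ℂ) (z : Fin s → ℂ) : eval z (lin l μ) = dot l z + μ := by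
  simp [lin, dot]

lemma dot_sc (l : Fin s → ℂ) (R : ℝ) (v : Fin s → ℂ) : dot l (sc R v) = (R : ℂ) * dot l v := by
  simp only [dot, sc, Finset.mul_sum]
  exact Finset.sum_congr rfl fun i _ => by ring

lemma expo_re {β : Type} [Fintype β] (l : β → Fin s → ℂ) (μ c : β → ℂ) (m : β →₀ ℕ) (R : ℝ)
    (v : Fin s → ℂ) :
    (eval (sc R v) (expo (fun b => lin (l b) (μ b)) m) + ∑ b, (m b : ℂ) * c b).re =
      R * ∑ b, (m b : ℝ) * (dot (l b) v).re + ∑ b, (m b : ℝ) * ((μ b).re + (c b).re) := by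
  rw [expo, map_sum, ← Finset.sum_add_distrib, Complex.re_sum, Finset.mul_sum,
    ← Finset.sum_add_distrib]
  refine Finset.sum_congr rfl fun b _ => ?_
  rw [map_mul, map_natCast, eval_lin, dot_sc]
  have h1 : ((m b : ℂ) * ((R : ℂ) * dot (l b) v + μ b) + (m b : ℂ) * c b).re =
      (m b : ℝ) * (R * (dot (l b) v).re + (μ b).re) + (m b : ℝ) * (c b).re := by
    rw [← Complex.ofReal_natCast, Complex.add_re, Complex.re_ofReal_mul, Complex.re_ofReal_mul,
      Complex.add_re, Complex.re_ofReal_mul]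
  rw [h1]
  ring

theorem t_DOM2 : S_TOP → S_DOM2 := by
  classical
  intro hT s β _ l μ c ω hω G hG
  have hne : G.support.Nonempty := by
    rw [MvPolynomial.support_nonempty]
    exact hG
  obtain ⟨e, he, hmax⟩ := Finset.exists_max_image G.support (fun m => ∑ b, (m b : ℝ) * ω b) hne
  -- strict inequality
  have hlt : ∀ m ∈ G.support, m ≠ e → 0 < ∑ b, ((e b : ℝ) - m b) * ω b := by
    intro m hm hme
    have h1 : (fun b => ((e b : ℤ) - m b)) ≠ 0 := by
      intro h
      apply hme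
      ext b
      have h2 := congrFun h b
      simp only [Pi.zero_apply] at h2
      omega
    have h2 := hω _ h1
    have h3 := hmax m hm
    have h4 : ∑ b, ((e b : ℝ) - m b) * ω b = ∑ b, (e b : ℝ) * ω b - ∑ b, (m b : ℝ) * ω b := by
      rw [← Finset.sum_sub_distrib]
      exact Finset.sum_congr rfl fun b _ => by ring
    have h5 : 0 ≤ ∑ b, ((e b : ℝ) - m b) * ω b := by
      rw [h4]
      exact sub_nonneg.2 h3
    refine lt_of_le_of_ne h5 (Ne.symm ?_)
    push_cast at h2
    exact h2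
  -- the gap
  obtain ⟨g, hg, hgap⟩ : ∃ g : ℝ, 0 < g ∧ ∀ m ∈ G.support, m ≠ e →
      g ≤ ∑ b, ((e b : ℝ) - m b) * ω b := by
    by_cases hem : (G.support.erase e).Nonempty
    · obtain ⟨m, hm, hmin⟩ := Finset.exists_min_image (G.support.erase e)
        (fun m => ∑ b, ((e b : ℝ) - m b) * ω b) hem
      refine ⟨_, hlt m (Finset.mem_of_mem_erase hm) (Finset.ne_of_mem_erase hm), ?_⟩
      intro m' hm' hne'
      exact hmin m' (Finset.mem_erase.2 ⟨hne', hm'⟩)
    · refine ⟨1, one_pos, fun m hm hme => absurd ⟨m, Finset.mem_erase.2 ⟨hme, hm⟩⟩ hem⟩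
  set M : ℝ := ∑ m ∈ G.support, ∑ b, |(e b : ℝ) - m b| + 1 with hM
  have hM0 : 0 < M := by
    have : 0 ≤ ∑ m ∈ G.support, ∑ b, |(e b : ℝ) - m b| :=
      Finset.sum_nonneg fun m _ => Finset.sum_nonneg fun b _ => abs_nonneg _
    linarith
  have hMle : ∀ m ∈ G.support, ∑ b, |(e b : ℝ) - m b| ≤ M := by
    intro m hm
    have : ∑ b, |(e b : ℝ) - m b| ≤ ∑ m ∈ G.support, ∑ b, |(e b : ℝ) - m b| :=
      Finset.single_le_sum (f := fun m : β →₀ ℕ => ∑ b, |(e b : ℝ) - m b|)
        (fun m _ => Finset.sum_nonneg fun b _ => abs_nonneg _) hm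
    linarith
  refine ⟨e, he, g / (3 * M), by positivity, ?_⟩
  intro ζ hζ htop
  -- the gap at the point ζ
  have hgapζ : ∀ m ∈ G.support, m ≠ e → g / 2 < ∑ b, ((e b : ℝ) - m b) * (dot (l b) ζ).re := by
    intro m hm hme
    have h1 := hgap m hm hme
    have h2 : |∑ b, ((e b : ℝ) - m b) * (dot (l b) ζ).re - ∑ b, ((e b : ℝ) - m b) * ω b| ≤ g / 3 := by
      rw [← Finset.sum_sub_distrib]
      refine (Finset.abs_sum_le_sum_abs _ _).trans ?_
      calc ∑ b, |((e b : ℝ) - m b) * (dot (l b) ζ).re - ((e b : ℝ) - m b) * ω b|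
          ≤ ∑ b, |(e b : ℝ) - m b| * (g / (3 * M)) := by
            refine Finset.sum_le_sum fun b _ => ?_
            rw [← mul_sub, abs_mul]
            exact mul_le_mul_of_nonneg_left (hζ b) (abs_nonneg _)
        _ = (∑ b, |(e b : ℝ) - m b|) * (g / (3 * M)) := (Finset.sum_mul _ _ _).symm
        _ ≤ M * (g / (3 * M)) := mul_le_mul_of_nonneg_right (hMle m hm) (by positivity)
        _ = g / 3 := by field_simp
    have h3 := (abs_le.1 h2).1
    linarith
  set κ : (β →₀ ℕ) → ℝ := fun m => ∑ b, (m b : ℝ) * ((μ b).re + (c b).re) with hκ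
  set T : ℝ × (Fin s → ℂ) → (β →₀ ℕ) → ℂ := fun x m => eval (sc x.1 x.2) (coeff m G) *
    Complex.exp (eval (sc x.1 x.2) (expo (fun b => lin (l b) (μ b)) m) + ∑ b, (m b : ℂ) * c b)
    with hTd
  have hTn : ∀ x m, ‖T x m‖ = ‖eval (sc x.1 x.2) (coeff m G)‖ *
      Real.exp (x.1 * ∑ b, (m b : ℝ) * (dot (l b) x.2).re + κ m) := by
    intro x m
    rw [hTd]
    simp only
    rw [norm_mul, Complex.norm_exp, expo_re]
  set L : ℝ := ‖eval ζ (top (coeff e G))‖ / 2 with hL
  have hL0 : 0 < L := half_pos (norm_pos_iff.2 htop)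
  set K : ℝ := ‖eval ζ (top (coeff e G))‖ + 1 with hK
  have hK1 : 1 ≤ K := by
    have := norm_nonneg (eval ζ (top (coeff e G)))
    linarith
  have hcard : (0 : ℝ) < G.support.card := by exact_mod_cast Finset.card_pos.2 hne
  have hsm : ∀ᶠ x in (atTop : Filter ℝ) ×ˢ 𝓝 ζ, ∀ m ∈ G.support.erase e,
      ‖T x m‖ ≤ 1 / (2 * G.support.card) * ‖T x e‖ := by
    refine (Filter.eventually_all_finset _).2 fun m hm => ?_
    obtain ⟨hme, hm⟩ := Finset.mem_erase.1 hm
    have h1 : ∀ᶠ v in 𝓝 ζ, g / 2 < ∑ b, ((e b : ℝ) - m b) * (dot (l b) v).re := by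
      have hc : Continuous fun v : Fin s → ℂ => ∑ b, ((e b : ℝ) - m b) * (dot (l b) v).re :=
        continuous_finsetSum _ fun b _ =>
          continuous_const.mul (Complex.continuous_re.comp (dot_cont (l b)))
      exact (hc.tendsto ζ).eventually (lt_mem_nhds (hgapζ m hm hme))
    set K' : ℝ := ‖eval ζ (top (coeff m G))‖ + 1 with hK'
    have hK'0 : 0 < K' := by positivity
    have hlim : Tendsto (fun R : ℝ => K' * Real.exp (κ m - κ e) *
        (R ^ ((coeff m G).totalDegree : ℝ) * Real.exp (-(g / 2) * R))) atTop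
        (𝓝 (K' * Real.exp (κ m - κ e) * 0)) :=
      (tendsto_rpow_mul_exp_neg_mul_atTop_nhds_zero _ (g / 2) (by positivity)).const_mul _
    rw [mul_zero] at hlim
    have hev : ∀ᶠ R : ℝ in atTop, K' * Real.exp (κ m - κ e) *
        (R ^ ((coeff m G).totalDegree : ℝ) * Real.exp (-(g / 2) * R)) <
          1 / (2 * G.support.card) * L :=
      hlim.eventually (gt_mem_nhds (by positivity))
    filter_upwards [upper hT (coeff m G) ζ, lower hT (coeff e G) ζ htop, h1.prod_inr atTop,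
      hev.prod_inl (𝓝 ζ), (eventually_ge_atTop (1 : ℝ)).prod_inl (𝓝 ζ)] with x h2 h3 h4 h5 h6
    rw [Real.rpow_natCast] at h5
    rw [hTn, hTn]
    set A := x.1 * ∑ b, (e b : ℝ) * (dot (l b) x.2).re + κ e with hA
    have h7 : x.1 * ∑ b, (m b : ℝ) * (dot (l b) x.2).re + κ m ≤
        A + (κ m - κ e) + -(g / 2) * x.1 := by
      have h8 : ∑ b, ((e b : ℝ) - m b) * (dot (l b) x.2).re =
          ∑ b, (e b : ℝ) * (dot (l b) x.2).re - ∑ b, (m b : ℝ) * (dot (l b) x.2).re := by
        rw [← Finset.sum_sub_distrib]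
        exact Finset.sum_congr rfl fun b _ => by ring
      rw [h8] at h4
      have h9 := mul_le_mul_of_nonneg_left h4.le (by linarith : (0 : ℝ) ≤ x.1)
      rw [hA]
      linarith
    have h9 : Real.exp (x.1 * ∑ b, (m b : ℝ) * (dot (l b) x.2).re + κ m) ≤
        Real.exp A * Real.exp (κ m - κ e) * Real.exp (-(g / 2) * x.1) := by
      rw [← Real.exp_add, ← Real.exp_add]
      exact Real.exp_le_exp.2 h7
    have hxp : 0 < x.1 ^ (coeff m G).totalDegree := by positivity
    calc ‖eval (sc x.1 x.2) (coeff m G)‖ *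
          Real.exp (x.1 * ∑ b, (m b : ℝ) * (dot (l b) x.2).re + κ m)
        ≤ (K' * x.1 ^ (coeff m G).totalDegree) *
          (Real.exp A * Real.exp (κ m - κ e) * Real.exp (-(g / 2) * x.1)) :=
          mul_le_mul h2 h9 (Real.exp_pos _).le (by positivity)
      _ = K' * Real.exp (κ m - κ e) *
          (x.1 ^ (coeff m G).totalDegree * Real.exp (-(g / 2) * x.1)) * Real.exp A := by ring
      _ ≤ 1 / (2 * G.support.card) * L * Real.exp A :=
          mul_le_mul_of_nonneg_right h5.le (Real.exp_pos _).le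
      _ ≤ 1 / (2 * G.support.card) * (‖eval (sc x.1 x.2) (coeff e G)‖ * Real.exp A) := by
          rw [mul_assoc]
          exact mul_le_mul_of_nonneg_left (mul_le_mul_of_nonneg_right h3 (Real.exp_pos _).le)
            (by positivity)
  set d : ℕ := (coeff e G).totalDegree with hd
  set C : ℝ := |κ e| + Real.log 2 + |Real.log L| + Real.log K + d with hC
  have hlog2 : 0 < Real.log 2 := Real.log_pos (by norm_num)
  have hlogK : 0 ≤ Real.log K := Real.log_nonneg hK1
  have hC0 : 0 ≤ C := by positivity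
  have hfin : ∀ᶠ x in (atTop : Filter ℝ) ×ˢ 𝓝 ζ,
      val (fun b => lin (l b) (μ b)) c (sc x.1 x.2) G ≠ 0 ∧
      |Real.log ‖val (fun b => lin (l b) (μ b)) c (sc x.1 x.2) G‖ -
        x.1 * ∑ b, (e b : ℝ) * (dot (l b) x.2).re| ≤ C * Real.log x.1 := by
    filter_upwards [hsm, upper hT (coeff e G) ζ, lower hT (coeff e G) ζ htop,
      (eventually_ge_atTop (3 : ℝ)).prod_inl (𝓝 ζ)] with x h2 h3 h4 h5
    have e1 : val (fun b => lin (l b) (μ b)) c (sc x.1 x.2) G =
        T x e + ∑ m ∈ G.support.erase e, T x m := by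
      rw [val_eq, ← Finset.add_sum_erase _ _ he]
    have e2 : ‖∑ m ∈ G.support.erase e, T x m‖ ≤ 1 / 2 * ‖T x e‖ := by
      refine (norm_sum_le _ _).trans ((Finset.sum_le_sum h2).trans ?_)
      rw [Finset.sum_const, nsmul_eq_mul, ← mul_assoc]
      refine mul_le_mul_of_nonneg_right ?_ (norm_nonneg _)
      have e3 : ((G.support.erase e).card : ℝ) ≤ G.support.card := by
        exact_mod_cast Finset.card_le_card (Finset.erase_subset _ _)
      rw [mul_one_div, div_le_div_iff₀ (by positivity) (by norm_num)]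
      linarith
    set V := val (fun b => lin (l b) (μ b)) c (sc x.1 x.2) G with hV
    have e4 : ‖T x e‖ ≤ ‖V‖ + ‖∑ m ∈ G.support.erase e, T x m‖ := by
      have := norm_sub_le V (∑ m ∈ G.support.erase e, T x m)
      rwa [e1, add_sub_cancel_right, ← e1] at this
    have e5 : ‖V‖ ≤ ‖T x e‖ + ‖∑ m ∈ G.support.erase e, T x m‖ := by
      rw [e1]
      exact norm_add_le _ _
    have hq0 : 0 < ‖eval (sc x.1 x.2) (coeff e G)‖ := lt_of_lt_of_le hL0 h4
    set S := ∑ b, (e b : ℝ) * (dot (l b) x.2).re with hS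
    have e6 : ‖T x e‖ = ‖eval (sc x.1 x.2) (coeff e G)‖ * Real.exp (x.1 * S + κ e) := hTn x e
    have e7 : 0 < ‖T x e‖ := by
      rw [e6]
      exact mul_pos hq0 (Real.exp_pos _)
    have e8 : ‖T x e‖ / 2 ≤ ‖V‖ := by linarith
    have e9 : ‖V‖ ≤ 2 * ‖T x e‖ := by linarith
    have e10 : 0 < ‖V‖ := lt_of_lt_of_le (by linarith) e8
    refine ⟨norm_pos_iff.1 e10, ?_⟩
    have hlogx : 1 ≤ Real.log x.1 := by
      rw [Real.le_log_iff_exp_le (by linarith)]
      have := Real.exp_one_lt_d9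
      linarith
    have f1 : Real.log ‖T x e‖ = Real.log ‖eval (sc x.1 x.2) (coeff e G)‖ + (x.1 * S + κ e) := by
      rw [e6, Real.log_mul hq0.ne' (Real.exp_pos _).ne', Real.log_exp]
    have f2 : Real.log ‖T x e‖ - Real.log 2 ≤ Real.log ‖V‖ := by
      rw [← Real.log_div e7.ne' two_ne_zero]
      exact Real.log_le_log (by linarith) e8
    have f3 : Real.log ‖V‖ ≤ Real.log 2 + Real.log ‖T x e‖ := by
      rw [← Real.log_mul two_ne_zero e7.ne']
      exact Real.log_le_log e10 e9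
    have f4 : Real.log L ≤ Real.log ‖eval (sc x.1 x.2) (coeff e G)‖ := Real.log_le_log hL0 h4
    have f5 : Real.log ‖eval (sc x.1 x.2) (coeff e G)‖ ≤ Real.log K + d * Real.log x.1 := by
      rw [← Real.log_pow, ← Real.log_mul (by linarith) (by positivity)]
      exact Real.log_le_log hq0 h3
    have g1 := neg_abs_le (κ e)
    have g2 := le_abs_self (κ e)
    have g3 := neg_abs_le (Real.log L)
    have g4 : |κ e| ≤ |κ e| * Real.log x.1 := le_mul_of_one_le_right (abs_nonneg _) hlogx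
    have g5 : Real.log 2 ≤ Real.log 2 * Real.log x.1 := le_mul_of_one_le_right hlog2.le hlogx
    have g6 : |Real.log L| ≤ |Real.log L| * Real.log x.1 :=
      le_mul_of_one_le_right (abs_nonneg _) hlogx
    have g7 : Real.log K ≤ Real.log K * Real.log x.1 := le_mul_of_one_le_right hlogK hlogx
    have g8 : 0 ≤ (d : ℝ) * Real.log x.1 := by positivity
    have g9 : C * Real.log x.1 = |κ e| * Real.log x.1 + Real.log 2 * Real.log x.1 +
        |Real.log L| * Real.log x.1 + Real.log K * Real.log x.1 + d * Real.log x.1 := by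
      rw [hC]
      ring
    have g10 := abs_nonneg (Real.log L)
    rw [abs_le]
    constructor <;> linarith
  obtain ⟨⟨R₀, ε⟩, ⟨-, hε⟩, h⟩ :=
    ((atTop_basis (α := ℝ)).prod (Metric.nhds_basis_ball (x := ζ))).eventually_iff.1 hfin
  refine ⟨ε, hε, max 1 R₀, le_max_left _ _, C, hC0, fun R hR v hv => ?_⟩
  exact h (x := (R, v)) ⟨(le_max_right _ _).trans hR, hv⟩

end Pool.Agent.K3h40.EX
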